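import Pool.Agent.Y993.HP.Stm

/-!
# Project HP (helper993): ties are unlikely

`tie : S_TIE`.
-/

set_option autoImplicit false

namespace Pool.Agent.Y237.HP

open Pool.Agent.Y993.HP Finset

theorem pr_eq {Ω : Type} [Fintype Ω] (E : Ω → Prop) [DecidablePred E] :
    Pr E = ((univ.filter E).card : ℝ) / (Fintype.card Ω : ℝ) := by
  unfold Pr Ex
  congr 1
  rw [Finset.natCast_card_filter]
  exact Finset.sum_congr rfl fun ω _ => by beta_reduce; congr

/-- two different coordinates agree with probability at most `1 / N` -/
theorem two_le {ι : Type} [Fintype ι] [DecidableEq ι] (N : ℕ) {a b : ι} (hab : a ≠ b) :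
    (univ.filter (fun u : ι → Fin N => u a = u b)).card * N ≤ Fintype.card (ι → Fin N) := by
  have h : ((univ.filter (fun u : ι → Fin N => u a = u b)) ×ˢ (univ : Finset (Fin N))).card ≤
      (univ : Finset (ι → Fin N)).card := by
    refine Finset.card_le_card_of_injOn (fun p => Function.update p.1 b p.2)
      (fun _ _ => Finset.mem_coe.2 (Finset.mem_univ _)) ?_
    rintro ⟨u, c⟩ hu ⟨v, e⟩ hv huv
    simp only [Finset.coe_product, Finset.coe_filter, Finset.mem_univ, true_and, Set.mem_prod,
      Set.mem_ofPred_eq, Finset.coe_univ, Set.mem_univ, and_true] at hu hv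
    simp only at huv
    have h1 : ∀ x, x ≠ b → u x = v x := fun x hx => by
      have := congrFun huv x
      rwa [Function.update_of_ne hx, Function.update_of_ne hx] at this
    have h2 := congrFun huv b
    rw [Function.update_self, Function.update_self] at h2
    refine Prod.ext (funext fun x => ?_) h2
    by_cases hx : x = b
    · subst hx
      simp only
      rw [← hu, ← hv]
      exact h1 a hab
    · exact h1 x hx
  rw [Finset.card_product, Finset.card_univ, Fintype.card_fin] at h
  exact h

theorem tie : S_TIE := by
  classical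
  intro d n N hN
  rw [pr_eq]
  have hpos : (0 : ℝ) < (Fintype.card (Lab d n N) : ℝ) := by
    have : 0 < Fintype.card (Lab d n N) := by
      have : Nonempty (Fin N) := ⟨⟨0, hN⟩⟩
      exact Fintype.card_pos
    exact_mod_cast this
  have hN' : (0 : ℝ) < N := by exact_mod_cast hN
  rw [div_le_div_iff₀ hpos hN']
  have hsub : (univ.filter (fun u : Lab d n N => ¬ NoTie u)) ⊆
      ((univ : Finset (Fin d × Fin n × Fin n)).filter (fun t => t.2.1 ≠ t.2.2)).biUnion
        (fun t => univ.filter (fun u : Lab d n N => u (t.1, t.2.1) = u (t.1, t.2.2))) := by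
    intro u hu
    have hu := (Finset.mem_filter.1 hu).2
    simp only [NoTie, Function.Injective] at hu
    push Not at hu
    obtain ⟨i, x, y, hxy, hne⟩ := hu
    simp only [Finset.mem_biUnion, Finset.mem_filter, Finset.mem_univ, true_and]
    exact ⟨(i, x, y), hne, hxy⟩
  have h1 : (univ.filter (fun u : Lab d n N => ¬ NoTie u)).card * N ≤
      d * n ^ 2 * Fintype.card (Lab d n N) := by
    calc (univ.filter (fun u : Lab d n N => ¬ NoTie u)).card * N
        ≤ (∑ t ∈ (univ : Finset (Fin d × Fin n × Fin n)).filter (fun t => t.2.1 ≠ t.2.2),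
            (univ.filter (fun u : Lab d n N => u (t.1, t.2.1) = u (t.1, t.2.2))).card) * N :=
          Nat.mul_le_mul_right _ ((Finset.card_le_card hsub).trans Finset.card_biUnion_le)
      _ = ∑ t ∈ (univ : Finset (Fin d × Fin n × Fin n)).filter (fun t => t.2.1 ≠ t.2.2),
            (univ.filter (fun u : Lab d n N => u (t.1, t.2.1) = u (t.1, t.2.2))).card * N :=
          Finset.sum_mul _ _ _
      _ ≤ ∑ t ∈ (univ : Finset (Fin d × Fin n × Fin n)).filter (fun t => t.2.1 ≠ t.2.2),
            Fintype.card (Lab d n N) := Finset.sum_le_sum fun t ht => by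
          refine two_le N fun h => ?_
          rw [Finset.mem_filter] at ht
          exact ht.2 (Prod.ext_iff.1 h).2
      _ = ((univ : Finset (Fin d × Fin n × Fin n)).filter (fun t => t.2.1 ≠ t.2.2)).card *
            Fintype.card (Lab d n N) := by rw [Finset.sum_const, smul_eq_mul]
      _ ≤ d * n ^ 2 * Fintype.card (Lab d n N) := by
          refine Nat.mul_le_mul_right _ ((Finset.card_filter_le _ _).trans ?_)
          rw [Finset.card_univ, Fintype.card_prod, Fintype.card_prod, Fintype.card_fin,
            Fintype.card_fin, sq]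
  exact_mod_cast h1

end Pool.Agent.Y237.HP
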